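import Mathlib

set_option autoImplicit false

open MeasureTheory ProbabilityTheory
open scoped BigOperators

namespace Pool.Agent.Lib_helper9.FPP

/-- CHEB. -/
theorem cheb_var_proof {Ω : Type*} [MeasurableSpace Ω] (P : Measure Ω) [IsProbabilityMeasure P]
    (X : Ω → ℝ) (hX : MemLp X 2 P) (s κ : ℝ) (hs : 0 ≤ s) (hκ : 0 < κ) (hκ1 : κ ≤ 1)
    (h : ∀ x : ℝ, 3 / 4 ≤ P.real {ω | X ω ≤ x} → κ ≤ P.real {ω | X ω ≤ x - s}) :
    κ * s ^ 2 / 16 ≤ variance X P := by
  by_contra hcon
  push Not at hcon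
  have hV0 : 0 ≤ variance X P := variance_nonneg X P
  have hs0 : 0 < s := by
    rcases eq_or_lt_of_le hs with h0 | h0
    · exfalso
      rw [← h0] at hcon
      have : κ * (0 : ℝ) ^ 2 / 16 = 0 := by ring
      rw [this] at hcon
      linarith
    · exact h0
  have hs2 : 0 < s ^ 2 := by positivity
  have hV1 : variance X P < s ^ 2 / 16 := by
    nlinarith
  set m := ∫ ω, X ω ∂P with hm
  have hc := meas_ge_le_variance_div_sq (μ := P) hX (c := s / 2) (by positivity)
  have hc' : P.real {ω | s / 2 ≤ |X ω - m|} ≤ variance X P / (s / 2) ^ 2 := by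
    rw [Measure.real]
    exact ENNReal.toReal_le_of_le_ofReal (by positivity) hc
  have e4 : variance X P / (s / 2) ^ 2 = 4 * variance X P / s ^ 2 := by
    field_simp
    ring
  rw [e4] at hc'
  have hlt : 4 * variance X P / s ^ 2 < 1 / 4 := by
    rw [div_lt_iff₀ hs2]
    linarith
  have h34 : 3 / 4 ≤ P.real {ω | X ω ≤ m + s / 2} := by
    have hsub : (Set.univ : Set Ω) ⊆ {ω | X ω ≤ m + s / 2} ∪ {ω | s / 2 ≤ |X ω - m|} := by
      intro ω _
      by_cases hω : X ω ≤ m + s / 2
      · exact Or.inl hω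
      · right
        push Not at hω
        show s / 2 ≤ |X ω - m|
        exact le_trans (by linarith) (le_abs_self _)
    have h1 : P.real Set.univ ≤ P.real {ω | X ω ≤ m + s / 2} + P.real {ω | s / 2 ≤ |X ω - m|} :=
      le_trans (measureReal_mono hsub) (measureReal_union_le _ _)
    rw [probReal_univ] at h1
    linarith
  have h2 := h _ h34
  have h3 : P.real {ω | X ω ≤ m + s / 2 - s} ≤ P.real {ω | s / 2 ≤ |X ω - m|} := by
    refine measureReal_mono ?_
    intro ω hω
    have hω' : X ω ≤ m + s / 2 - s := hω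
    show s / 2 ≤ |X ω - m|
    rw [abs_sub_comm]
    exact le_trans (by linarith) (le_abs_self _)
  have h4 : κ ≤ 4 * variance X P / s ^ 2 := le_trans h2 (le_trans h3 hc')
  rw [le_div_iff₀ hs2] at h4
  nlinarith

end Pool.Agent.Lib_helper9.FPP
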