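import Pool.Agent.Lib_helper59.FPP.CG2
import Pool.Agent.Lib_helper89.FPP.LOOP

/-! # Block HV1 of MP_a5a93b_pr -/

set_option autoImplicit false

open MeasureTheory ProbabilityTheory
open scoped BigOperators

namespace Pool.Agent.Lib_helper9.FPP

namespace HV1

/-! ### Few heavy edges in a duplicate-free list of edges -/

section
variable {E : Type*} [Fintype E] [DecidableEq E]

lemma integral_gen (F : Measure ℝ) [IsProbabilityMeasure F] (b z : ℝ) (S : Finset E) :
    ∫ t : E → ℝ, ∏ e, (if e ∈ S then (if b ≤ t e then z else 1) else 1)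
      ∂(Measure.pi (fun _ : E => F)) =
      (F.real (Set.Iio b) + (1 - F.real (Set.Iio b)) * z) ^ S.card := by
  have h1 := integral_fintype_prod_eq_prod (𝕜 := ℝ) (ι := E) (E := fun _ => ℝ)
    (fun e y => if e ∈ S then (if b ≤ y then z else 1) else 1) (μ := fun _ : E => F)
  rw [h1]
  have h2 : ∀ e : E, ∫ y, (if e ∈ S then (if b ≤ y then z else 1) else 1) ∂F =
      if e ∈ S then (F.real (Set.Iio b) + (1 - F.real (Set.Iio b)) * z) else 1 := by
    intro e
    split_ifs with he
    · have h3 : (fun y : ℝ => if b ≤ y then z else 1) =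
          fun y => (Set.Iio b).indicator (fun _ => (1 : ℝ)) y +
            (Set.Iio b)ᶜ.indicator (fun _ => z) y := by
        funext y
        by_cases hy : b ≤ y
        · simp [hy]
        · simp [hy, not_le.1 hy]
      rw [h3, integral_add ((integrable_const _).indicator measurableSet_Iio)
        ((integrable_const _).indicator measurableSet_Iio.compl),
        integral_indicator_const _ measurableSet_Iio,
        integral_indicator_const _ measurableSet_Iio.compl, probReal_compl_eq_one_sub
          measurableSet_Iio]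
      simp
    · simp
  rw [Finset.prod_congr rfl (fun e _ => h2 e), Finset.prod_ite, Finset.prod_const_one, mul_one,
    Finset.prod_const]
  congr 2
  ext e
  simp

lemma prob_few (F : Measure ℝ) [IsProbabilityMeasure F] (b z θ : ℝ) (c : ℝ) (hz0 : 0 < z)
    (hz1 : z ≤ 1) (hθ : 0 < θ) (hc : z ^ c = θ) (u : ℕ) (L : List E) (hL : L.Nodup)
    (hlen : L.length = u) :
    (Measure.pi (fun _ : E => F)).real
      {t | ((L.countP (fun e => decide (b ≤ t e)) : ℕ) : ℝ) < c * u} ≤
      ((F.real (Set.Iio b) + (1 - F.real (Set.Iio b)) * z) / θ) ^ u := by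
  set P := Measure.pi (fun _ : E => F) with hP
  set f : (E → ℝ) → ℝ := fun t => ∏ e, (if e ∈ L.toFinset then (if b ≤ t e then z else 1) else 1)
    with hf
  have hf0 : ∀ t, 0 ≤ f t := by
    intro t
    refine Finset.prod_nonneg (fun e _ => ?_)
    split_ifs <;> positivity
  have hf1 : ∀ t, f t = z ^ (L.countP (fun e => decide (b ≤ t e))) := by
    intro t
    simp only [hf]
    rw [Finset.prod_ite, Finset.prod_const_one, mul_one, Finset.prod_ite, Finset.prod_const_one,
      mul_one, Finset.prod_const]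
    congr 1
    rw [List.countP_eq_length_filter, ← List.toFinset_card_of_nodup (hL.filter _)]
    congr 1
    ext e
    simp
  have hfm : Measurable f := by
    refine Finset.measurable_prod _ (fun e _ => ?_)
    split_ifs
    · exact Measurable.ite (measurableSet_le measurable_const (measurable_pi_apply e))
        measurable_const measurable_const
    · exact measurable_const
  have hfi : Integrable f P := by
    refine Integrable.of_bound hfm.aestronglyMeasurable 1 (Filter.Eventually.of_forall ?_)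
    intro t
    rw [Real.norm_eq_abs, abs_of_nonneg (hf0 t), hf1]
    exact pow_le_one₀ hz0.le hz1
  have hθu : 0 < θ ^ u := pow_pos hθ u
  have hmk := mul_meas_ge_le_integral_of_nonneg (μ := P) (Filter.Eventually.of_forall hf0) hfi
    (θ ^ u)
  have hsub : {t : E → ℝ | ((L.countP (fun e => decide (b ≤ t e)) : ℕ) : ℝ) < c * u} ⊆
      {t | θ ^ u ≤ f t} := by
    intro t ht
    have ht' : ((L.countP (fun e => decide (b ≤ t e)) : ℕ) : ℝ) < c * u := ht
    show θ ^ u ≤ f t
    rw [hf1, ← hc, ← Real.rpow_natCast (z ^ c), ← Real.rpow_mul hz0.le, ← Real.rpow_natCast z]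
    exact Real.rpow_le_rpow_of_exponent_ge hz0 hz1 ht'.le
  have hint : ∫ t, f t ∂P = (F.real (Set.Iio b) + (1 - F.real (Set.Iio b)) * z) ^ u := by
    rw [hP]
    simp only [hf]
    rw [integral_gen F b z L.toFinset, List.toFinset_card_of_nodup hL, hlen]
  have h1 : P.real {t : E → ℝ | ((L.countP (fun e => decide (b ≤ t e)) : ℕ) : ℝ) < c * u} ≤
      P.real {t | θ ^ u ≤ f t} := measureReal_mono hsub
  rw [hint] at hmk
  rw [div_pow, le_div_iff₀ hθu]
  calc _ ≤ P.real {t | θ ^ u ≤ f t} * θ ^ u := by gcongr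
    _ ≤ _ := by
      rw [mul_comm]
      exact hmk

end

/-! ### Non-backtracking words -/

/-- The inverse step. -/
def inv (s : Step 2) : Step 2 := (s.1, !s.2)

lemma stepVec_inv (s : Step 2) : stepVec s + stepVec (inv s) = 0 := by
  unfold stepVec inv
  cases h : s.2
  · simp only [Bool.not_false, if_true, Bool.false_eq_true, if_false]
    rw [← Pi.single_add]
    simp
  · simp only [Bool.not_true, if_true, Bool.false_eq_true, if_false]
    rw [← Pi.single_add]
    simp

/-- Non-backtracking words of length `k` that can follow the step `s`. -/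
def nbf : ℕ → Step 2 → Finset (List (Step 2))
  | 0, _ => {[]}
  | k + 1, s => (Finset.univ.erase (inv s)).biUnion (fun s' => (nbf k s').image (List.cons s'))

lemma card_nbf (k : ℕ) (s : Step 2) : (nbf k s).card ≤ 3 ^ k := by
  induction k generalizing s with
  | zero => simp [nbf]
  | succ k ih =>
    rw [nbf]
    refine le_trans Finset.card_biUnion_le ?_
    refine le_trans (Finset.sum_le_sum (g := fun _ => 3 ^ k) (fun s' _ => ?_)) ?_
    · exact le_trans Finset.card_image_le (ih s')
    · rw [Finset.sum_const, Finset.card_erase_of_mem (Finset.mem_univ _), Finset.card_univ,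
        smul_eq_mul, pow_succ]
      have : Fintype.card (Step 2) = 4 := by
        simp [Step]
      rw [this]
      omega

lemma mem_nbf (l : List (Step 2)) : ∀ (x : Fin 2 → ℤ) (s : Step 2), SAW x l →
    (∀ s' l', l = s' :: l' → s' ≠ inv s) → l ∈ nbf l.length s := by
  induction l with
  | nil => intro x s _ _; simp [nbf]
  | cons s' l ih =>
    intro x s hs hhead
    rw [List.length_cons, nbf, Finset.mem_biUnion]
    refine ⟨s', Finset.mem_erase.2 ⟨hhead s' l rfl, Finset.mem_univ _⟩, ?_⟩
    rw [Finset.mem_image]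
    refine ⟨l, ?_, rfl⟩
    apply ih (x + stepVec s') s'
    · exact CG2.SAW_append_right x [s'] l hs
    · rintro s'' l'' rfl h
      have h0 := hs 0 2 (by simp) (by simp) (by
        have h1 := stepVec_inv s'
        simp only [pos, List.take, endpt]
        rw [h, add_assoc, h1, add_zero])
      omega

/-- All non-backtracking words of length `k + 1`. -/
def nbw (k : ℕ) : Finset (List (Step 2)) :=
  Finset.univ.biUnion (fun s : Step 2 => (nbf k s).image (List.cons s))

lemma card_nbw (k : ℕ) : (nbw k).card ≤ 4 * 3 ^ k := by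
  refine le_trans Finset.card_biUnion_le ?_
  refine le_trans (Finset.sum_le_sum (g := fun _ => 3 ^ k) (fun s' _ => ?_)) ?_
  · exact le_trans Finset.card_image_le (card_nbf k s')
  · rw [Finset.sum_const, Finset.card_univ, smul_eq_mul]
    have : Fintype.card (Step 2) = 4 := by
      simp [Step]
    rw [this]

lemma mem_nbw (x : Fin 2 → ℤ) (l : List (Step 2)) (k : ℕ) (hk : l.length = k + 1)
    (hs : SAW x l) : l ∈ nbw k := by
  cases l with
  | nil => simp at hk
  | cons s l =>
    rw [nbw, Finset.mem_biUnion]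
    refine ⟨s, Finset.mem_univ _, ?_⟩
    rw [Finset.mem_image]
    refine ⟨l, ?_, rfl⟩
    have hl : l.length = k := by simpa using hk
    rw [← hl]
    apply mem_nbf l (x + stepVec s) s
    · exact CG2.SAW_append_right x [s] l hs
    · rintro s'' l'' rfl h
      have h0 := hs 0 2 (by simp) (by simp) (by
        have h1 := stepVec_inv s
        simp only [pos, List.take, endpt]
        rw [h, add_assoc, h1, add_zero])
      omega

/-! ### Displacement and length -/

lemma abs_pos_le (x : Fin 2 → ℤ) (l : List (Step 2)) (α : Fin 2) :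
    |endpt x l α - x α| ≤ (l.length : ℤ) := by
  induction l generalizing x with
  | nil => simp [endpt]
  | cons s l ih =>
    simp only [endpt, List.length_cons]
    have h1 := ih (x + stepVec s)
    have h2 := CG2.abs_stepVec_le s α
    have h3 : endpt (x + stepVec s) l α - x α =
        (endpt (x + stepVec s) l α - (x + stepVec s) α) + stepVec s α := by
      simp only [Pi.add_apply]
      ring
    rw [h3]
    have h4 := abs_add_le (endpt (x + stepVec s) l α - (x + stepVec s) α) (stepVec s α)
    push_cast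
    linarith

/-- The bad event is contained in a finite union. -/
lemma bad_subset (N : ℕ) (hN : 5 ≤ N) (b c : ℝ) (k : ℕ) (hk : Nat.sqrt N = k + 1) :
    Bad N b c ⊆ ⋃ y : Fin 2 → Fin N, ⋃ l ∈ nbw k,
      {t : TEdge 2 N → ℝ | (walkEdges N (fun α => ((y α : ℕ) : ℤ)) l).Nodup ∧ l.length = k + 1 ∧
        (((walkEdges N (fun α => ((y α : ℕ) : ℤ)) l).countP (fun e => decide (b ≤ t e)) : ℕ) : ℝ)
          < c * ((k + 1 : ℕ) : ℝ)} := by
  rintro t ⟨x, l, hs, ⟨α, hα⟩, hh⟩
  have hN0 : 0 < N := by omega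
  have hlen : k + 1 ≤ l.length := by
    have h1 := abs_pos_le x l α
    rw [hk] at hα
    have : ((k + 1 : ℕ) : ℤ) ≤ (l.length : ℤ) := le_trans hα h1
    exact_mod_cast this
  have hlt : (l.take (k + 1)).length = k + 1 := by
    rw [List.length_take]
    omega
  have hst := CG2.SAW_take x l (k + 1) hs
  -- the representative of the starting point
  set y : Fin 2 → Fin N := fun β => ⟨(x β % (N : ℤ)).toNat, by
    have h1 := Int.emod_lt_of_pos (x β) (by exact_mod_cast hN0 : (0 : ℤ) < N)
    have h2 := Int.emod_nonneg (x β) (by exact_mod_cast hN0.ne' : (N : ℤ) ≠ 0)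
    omega⟩ with hy
  have hx : x = (fun β => ((y β : ℕ) : ℤ)) + (N : ℤ) • (fun β => x β / (N : ℤ)) := by
    funext β
    have h2 := Int.emod_nonneg (x β) (by exact_mod_cast hN0.ne' : (N : ℤ) ≠ 0)
    simp only [hy, Pi.add_apply, Pi.smul_apply, smul_eq_mul]
    rw [Int.toNat_of_nonneg h2]
    exact (Int.emod_add_mul_ediv (x β) N).symm
  have hwe : walkEdges N x (l.take (k + 1)) =
      walkEdges N (fun β => ((y β : ℕ) : ℤ)) (l.take (k + 1)) := by
    conv_lhs => rw [hx]
    exact walkEdges_shift_proof N _ _ _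
  have hnd : (walkEdges N x (l.take (k + 1))).Nodup := by
    refine CG2.walkEdges_nodup N x _ hst (k + 1) ?_ ?_
    · have h1 := Nat.sqrt_le' N
      rw [hk] at h1
      by_contra hcon
      push Not at hcon
      have hk3 : k + 1 ≤ 2 := by
        by_contra h3
        push Not at h3
        nlinarith
      have : k ≤ 1 := by omega
      interval_cases k <;> omega
    · intro i hi β
      rw [hlt] at hi
      have h1 := abs_pos_le x ((l.take (k + 1)).take i) β
      refine le_trans h1 ?_
      rw [List.length_take, hlt]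
      have : min i (k + 1) ≤ k + 1 := min_le_right _ _
      exact_mod_cast this
  refine Set.mem_iUnion.2 ⟨y, Set.mem_iUnion₂.2 ⟨l.take (k + 1), mem_nbw x _ k hlt hst, ?_⟩⟩
  refine ⟨?_, hlt, ?_⟩
  · rw [← hwe]
    exact hnd
  · rw [← hwe]
    have h1 : (heavyCount b t x l : ℝ) < c * ((k + 1 : ℕ) : ℝ) := by
      rw [hk] at hh
      exact hh
    refine lt_of_le_of_lt ?_ h1
    have h2 : heavyCount b t x l =
        heavyCount b t x (l.take (k + 1)) +
          heavyCount b t (endpt x (l.take (k + 1))) (l.drop (k + 1)) := by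
      rw [← CG2.heavyCount_append, List.take_append_drop]
    have h3 : heavyCount b t x (l.take (k + 1)) =
        (walkEdges N x (l.take (k + 1))).countP (fun e => decide (b ≤ t e)) := by
      unfold heavyCount
      congr
    rw [← h3, h2]
    push_cast
    have : (0 : ℝ) ≤ (heavyCount b t (endpt x (l.take (k + 1))) (l.drop (k + 1)) : ℝ) :=
      Nat.cast_nonneg _
    linarith

lemma prob_bad (F : Measure ℝ) [IsProbabilityMeasure F] (b z θ c : ℝ) (hz0 : 0 < z)
    (hz1 : z ≤ 1) (hθ : 0 < θ) (hc : z ^ c = θ) (N : ℕ) [NeZero N] (hN : 5 ≤ N) (k : ℕ)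
    (hk : Nat.sqrt N = k + 1) :
    (Measure.pi (fun _ : TEdge 2 N => F)).real (Bad N b c) ≤
      (N : ℝ) ^ 2 * (4 * 3 ^ k) *
        ((F.real (Set.Iio b) + (1 - F.real (Set.Iio b)) * z) / θ) ^ (k + 1) := by
  set P := Measure.pi (fun _ : TEdge 2 N => F) with hP
  set ρ := (F.real (Set.Iio b) + (1 - F.real (Set.Iio b)) * z) / θ with hρ
  have hq1 : F.real (Set.Iio b) ≤ 1 := measureReal_le_one
  have hq0 : 0 ≤ F.real (Set.Iio b) := measureReal_nonneg
  have hρ0 : 0 ≤ ρ := by
    rw [hρ]
    have : 0 ≤ 1 - F.real (Set.Iio b) := by linarith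
    positivity
  refine le_trans (measureReal_mono (bad_subset N hN b c k hk)) ?_
  refine le_trans (measureReal_iUnion_fintype_le _) ?_
  refine le_trans (Finset.sum_le_sum (g := fun _ => (4 * 3 ^ k) * ρ ^ (k + 1)) (fun y _ => ?_)) ?_
  · refine le_trans (measureReal_biUnion_finset_le _ _) ?_
    refine le_trans (Finset.sum_le_sum (g := fun _ => ρ ^ (k + 1)) (fun l _ => ?_)) ?_
    · by_cases hgood : (walkEdges N (fun α => ((y α : ℕ) : ℤ)) l).Nodup ∧ l.length = k + 1
      · refine le_trans (measureReal_mono (s₂ := {t : TEdge 2 N → ℝ |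
          (((walkEdges N (fun α => ((y α : ℕ) : ℤ)) l).countP (fun e => decide (b ≤ t e)) : ℕ) : ℝ)
          < c * ((k + 1 : ℕ) : ℝ)}) ?_) ?_
        · rintro t ⟨_, _, h⟩
          exact h
        · exact prob_few F b z θ c hz0 hz1 hθ hc (k + 1) _ hgood.1
            (by rw [CG2.walkEdges_length]; exact hgood.2)
      · have : {t : TEdge 2 N → ℝ | (walkEdges N (fun α => ((y α : ℕ) : ℤ)) l).Nodup ∧
            l.length = k + 1 ∧
            (((walkEdges N (fun α => ((y α : ℕ) : ℤ)) l).countP
              (fun e => decide (b ≤ t e)) : ℕ) : ℝ) < c * ((k + 1 : ℕ) : ℝ)} = ∅ := by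
          ext t
          simp only [Set.mem_ofPred_eq, Set.mem_empty_iff_false, iff_false]
          rintro ⟨h1, h2, _⟩
          exact hgood ⟨h1, h2⟩
        rw [this]
        simp only [measureReal_empty]
        positivity
    · rw [Finset.sum_const, nsmul_eq_mul]
      have := card_nbw k
      have h2 : ((nbw k).card : ℝ) ≤ 4 * 3 ^ k := by exact_mod_cast this
      gcongr
  · rw [Finset.sum_const, nsmul_eq_mul, Finset.card_univ]
    have : Fintype.card (Fin 2 → Fin N) = N ^ 2 := by simp
    rw [this]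
    push_cast
    linarith

end HV1

open HV1 in
/-- HV1. -/
theorem heavy_of_third_proof (F : Measure ℝ) [IsProbabilityMeasure F] (b : ℝ)
    (hq : F.real (Set.Iio b) < 1 / 3) :
    ∃ c : ℝ, 0 < c ∧ c ≤ 1 ∧
      Filter.Tendsto (fun n : ℕ => (Measure.pi (fun _ : TEdge 2 (n + 1) => F)) (Bad (n + 1) b c))
        Filter.atTop (nhds 0) := by
  set q := F.real (Set.Iio b) with hqdef
  have hq0 : 0 ≤ q := measureReal_nonneg
  set z : ℝ := (1 / 3 - q) / 2 with hz
  have hz0 : 0 < z := by rw [hz]; linarith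
  have hz6 : z ≤ 1 / 6 := by rw [hz]; linarith
  set σ : ℝ := 3 * (q + z) with hσ
  have hσ1 : σ < 1 := by rw [hσ, hz]; linarith
  have hσ0 : 1 / 2 ≤ σ := by rw [hσ, hz]; linarith
  set θ : ℝ := Real.sqrt σ with hθ
  have hθ0 : 0 < θ := Real.sqrt_pos.2 (by linarith)
  have hθ1 : θ < 1 := by
    rw [hθ, Real.sqrt_lt' one_pos]
    linarith
  have hθσ : θ * θ = σ := Real.mul_self_sqrt (by linarith)
  have hσθ : σ ≤ θ := by nlinarith
  set c : ℝ := Real.log θ / Real.log z with hc
  have hlz : Real.log z < 0 := Real.log_neg hz0 (by linarith)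
  have hlθ : Real.log θ < 0 := Real.log_neg hθ0 hθ1
  have hc0 : 0 < c := div_pos_of_neg_of_neg hlθ hlz
  have hc1 : c ≤ 1 := by
    rw [hc, div_le_one_of_neg hlz]
    exact Real.log_le_log hz0 (by linarith)
  have hzc : z ^ c = θ := by
    rw [Real.rpow_def_of_pos hz0, hc, mul_div_cancel₀ _ hlz.ne, Real.exp_log hθ0]
  refine ⟨c, hc0, hc1, ?_⟩
  -- the bound
  have hbound : ∀ n : ℕ, 4 ≤ n →
      (Measure.pi (fun _ : TEdge 2 (n + 1) => F)).real (Bad (n + 1) b c) ≤
        2 * θ⁻¹ * (((Nat.sqrt (n + 1) + 1 : ℕ) : ℝ) ^ 4 * θ ^ (Nat.sqrt (n + 1) + 1)) := by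
    intro n hn
    obtain ⟨k, hk⟩ : ∃ k, Nat.sqrt (n + 1) = k + 1 := by
      have : 0 < Nat.sqrt (n + 1) := Nat.sqrt_pos.2 (by omega)
      exact ⟨Nat.sqrt (n + 1) - 1, by omega⟩
    have h1 := prob_bad F b z θ c hz0 (by linarith) hθ0 hzc (n + 1) (by omega) k hk
    refine le_trans h1 ?_
    rw [← hqdef, hk]
    have h2 : ((n + 1 : ℕ) : ℝ) ≤ ((k + 1 + 1 : ℕ) : ℝ) ^ 2 := by
      have := Nat.succ_le_succ_sqrt' (n + 1)
      rw [hk] at this
      have h3 : n + 1 ≤ (k + 1 + 1) ^ 2 := by
        have h4 : n + 1 ≤ (n + 1).succ := Nat.le_succ _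
        exact le_trans h4 this
      exact_mod_cast h3
    have h3 : (q + (1 - q) * z) / θ ≤ θ / 3 := by
      rw [div_le_iff₀ hθ0]
      have : θ / 3 * θ = σ / 3 := by rw [← hθσ]; ring
      rw [this, hσ]
      nlinarith
    have h4 : 0 ≤ (q + (1 - q) * z) / θ := by
      have : 0 ≤ 1 - q := by linarith
      positivity
    calc ((n + 1 : ℕ) : ℝ) ^ 2 * (4 * 3 ^ k) * ((q + (1 - q) * z) / θ) ^ (k + 1)
        ≤ (((k + 1 + 1 : ℕ) : ℝ) ^ 2) ^ 2 * (4 * 3 ^ k) * (θ / 3) ^ (k + 1) := by gcongr
      _ = 4 / 3 * (((k + 1 + 1 : ℕ) : ℝ) ^ 4 * θ ^ (k + 1)) := by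
          rw [div_pow, pow_succ 3 k]
          field_simp
      _ ≤ 2 * (((k + 1 + 1 : ℕ) : ℝ) ^ 4 * θ ^ (k + 1)) := by
          gcongr
          norm_num
      _ = 2 * θ⁻¹ * (((k + 1 + 1 : ℕ) : ℝ) ^ 4 * θ ^ (k + 1 + 1)) := by
          rw [pow_succ θ (k + 1)]
          field_simp
  have hlim : Filter.Tendsto (fun n : ℕ => ENNReal.ofReal
      (2 * θ⁻¹ * (((Nat.sqrt (n + 1) + 1 : ℕ) : ℝ) ^ 4 * θ ^ (Nat.sqrt (n + 1) + 1))))
      Filter.atTop (nhds 0) := by
    rw [← ENNReal.ofReal_zero]
    apply (ENNReal.continuous_ofReal.tendsto 0).comp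
    have h1 : Filter.Tendsto (fun m : ℕ => (m : ℝ) ^ 4 * θ ^ m) Filter.atTop (nhds 0) :=
      tendsto_pow_const_mul_const_pow_of_abs_lt_one 4 (by rw [abs_of_pos hθ0]; exact hθ1)
    have h2 : Filter.Tendsto (fun n : ℕ => Nat.sqrt (n + 1) + 1) Filter.atTop Filter.atTop := by
      rw [Filter.tendsto_atTop]
      intro B
      filter_upwards [Filter.eventually_ge_atTop (B * B)] with n hn
      have : B ≤ Nat.sqrt (n + 1) := by
        rw [Nat.le_sqrt]
        omega
      omega
    have h3 := (h1.comp h2).const_mul (2 * θ⁻¹)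
    rw [mul_zero] at h3
    exact h3
  refine tendsto_of_tendsto_of_tendsto_of_le_of_le' tendsto_const_nhds hlim
    (Filter.Eventually.of_forall (fun _ => bot_le)) ?_
  filter_upwards [Filter.eventually_ge_atTop 4] with n hn
  have h1 := hbound n hn
  rw [Measure.real] at h1
  exact (ENNReal.le_ofReal_iff_toReal_le (measure_ne_top _ _) (by positivity)).2 h1

end Pool.Agent.Lib_helper9.FPP
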